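import Pool.Agent.H3.BI.Asm4

/-!
# Fluctuations of branching internal DLA in dimension three and higher

Both deviations are at most `r ^ (a + ε)` with `a = 1 / 2` in dimension three and `a = 0` in
dimension four and higher; in dimension three `1 / 2` is the exact exponent of both.
-/

set_option autoImplicit false

open scoped ENNReal Topology
open MeasureTheory Filter
open Pool.Agent.H3.BI

namespace Pool.Agent.Results.MP_1354f0_pr.FluctuationExponents

theorem result (d : ℕ) [NeZero d] (ν : PMF ℕ) (hd : 3 ≤ d) (hν : ConditionH ν) :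
    (∃ (Ω : Type) (_ : MeasurableSpace Ω) (P : Measure Ω) (X : ℕ → Ω → Finset (Site d)),
      IsBIDLA ν P X) ∧
    ∀ (Ω : Type) (_ : MeasurableSpace Ω) (P : Measure Ω) (X : ℕ → Ω → Finset (Site d)),
      IsBIDLA ν P X →
      (∀ᵐ ω ∂P, ∀ ε : ℝ, 0 < ε → ∀ᶠ t : ℕ in atTop,
        innerDev t (X t ω) ≤ rad d t ^ ((if d = 3 then 1 / 2 else 0) + ε) ∧
        outerDev t (X t ω) ≤ rad d t ^ ((if d = 3 then 1 / 2 else 0) + ε)) ∧
      (∀ ε : ℝ, 0 < ε → ∃ c : ℝ, 0 < c ∧ ∀ᶠ t : ℕ in atTop,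
        P {ω | rad d t ^ ((if d = 3 then 1 / 2 else 0) + ε) < innerDev t (X t ω) ∨
          rad d t ^ ((if d = 3 then 1 / 2 else 0) + ε) < outerDev t (X t ω)} ≤
            ENNReal.ofReal (Real.exp (-(rad d t ^ c)))) ∧
      (d = 3 →
        (∀ᵐ ω ∂P,
          limsup (fun t : ℕ => Real.log (innerDev t (X t ω)) / Real.log (rad d t)) atTop =
            1 / 2 ∧
          limsup (fun t : ℕ => Real.log (outerDev t (X t ω)) / Real.log (rad d t)) atTop =
            1 / 2) ∧
        ∃ c : ℝ, 0 < c ∧ ∀ᶠ t : ℕ in atTop,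
          ENNReal.ofReal c ≤ P {ω | c * Real.sqrt (rad d t) ≤ innerDev t (X t ω)} ∧
          ENNReal.ofReal c ≤ P {ω | c * Real.sqrt (rad d t) ≤ outerDev t (X t ω)}) ∧
      (4 ≤ d → ∀ᵐ ω ∂P,
        Tendsto (fun t : ℕ => Real.log (1 + innerDev t (X t ω)) / Real.log (rad d t))
          atTop (𝓝 0) ∧
        Tendsto (fun t : ℕ => Real.log (1 + outerDev t (X t ω)) / Real.log (rad d t))
          atTop (𝓝 0)) :=
  p_RES d ν hd hν

end Pool.Agent.Results.MP_1354f0_pr.FluctuationExponents
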